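import Pool.Agent.E8helper2.PS.Stm

/-!
# Project PS (helper2), piece REG: the continuation on a gap in the variable `w`
-/

set_option autoImplicit false
open MeasureTheory Filter Topology

namespace Pool.Agent.E8helper98.PS

open Pool.Agent.E8helper2.PS

theorem phi_pow (a : ℕ → ℂ) (w : ℂ) :
    Phi a w = ∑' n, a n * Complex.exp (w * Complex.I) ^ n := by
  unfold Phi
  refine tsum_congr fun n => ?_
  rw [← Complex.exp_nat_mul]
  congr 2
  ring

theorem norm_exp_lt {w : ℂ} (hw : 0 < w.im) : ‖Complex.exp (w * Complex.I)‖ < 1 := by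
  rw [Complex.norm_exp]
  rw [Real.exp_lt_one_iff]
  simp
  exact hw

/-- **piece REG** -/
theorem t_REG (h3 : S_CONT) : S_REG := by
  intro a M e₁ e₂ ha he hg
  have hcont : ContinuousOn (Phi a) {w : ℂ | 0 < w.im} := (h3 a M ha).1.continuousOn
  refine ⟨extendFrom {w : ℂ | 0 < w.im} (Phi a), ?_, ?_⟩
  · refine continuousOn_extendFrom ?_ ?_
    · rw [Complex.closure_setOfPred_lt_im]
      rintro w (hw | hw)
      · exact le_of_lt hw
      · exact le_of_eq hw.1.symm
    · rintro w (hw | ⟨hw0, hw1, hw2⟩)
      · exact ⟨Phi a w, hcont w hw⟩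
      · obtain ⟨r, hr, g, hgd, hgs⟩ := hg w.re ⟨hw1, hw2⟩
        have hwre : ((w.re : ℝ) : ℂ) = w := by
          apply Complex.ext
          · simp
          · simp [hw0]
        rw [hwre] at hgd hgs
        refine ⟨g (Complex.exp (w * Complex.I)), ?_⟩
        have hgc : ContinuousAt g (Complex.exp (w * Complex.I)) :=
          (hgd.differentiableAt (Metric.isOpen_ball.mem_nhds (Metric.mem_ball_self hr))).continuousAt
        have hec : Tendsto (fun z : ℂ => Complex.exp (z * Complex.I)) (𝓝 w)
            (𝓝 (Complex.exp (w * Complex.I))) := by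
          have : Continuous (fun z : ℂ => Complex.exp (z * Complex.I)) := by fun_prop
          exact this.tendsto w
        have h1 : Tendsto (fun z : ℂ => g (Complex.exp (z * Complex.I))) (𝓝[{w : ℂ | 0 < w.im}] w)
            (𝓝 (g (Complex.exp (w * Complex.I)))) :=
          (hgc.tendsto.comp hec).mono_left nhdsWithin_le_nhds
        refine h1.congr' ?_
        have h2 : ∀ᶠ z in 𝓝[{w : ℂ | 0 < w.im}] w,
            Complex.exp (z * Complex.I) ∈ Metric.ball (Complex.exp (w * Complex.I)) r :=
          (hec.mono_left nhdsWithin_le_nhds).eventually (Metric.ball_mem_nhds _ hr)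
        filter_upwards [h2, self_mem_nhdsWithin] with z hz hz2
        rw [hgs _ hz (norm_exp_lt hz2), phi_pow]
  · intro w hw
    exact extendFrom_extends hcont w hw

end Pool.Agent.E8helper98.PS
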